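import Mathlib

/-!
# Percolation games
-/

namespace Pool.Agent.Lib.MP_f59e5e_pr

open MeasureTheory Filter Topology

/-- A percolation game on `ℤ^d`: finite action sets `I`, `J`, a probability space with an ergodic
measure preserving action `shift` of `ℤ^d`, bounded stationary payoffs and a transition map. -/
structure PercolationGame (d : ℕ) where
  /-- actions of Player 1 -/
  I : Type
  /-- actions of Player 2 -/
  J : Type
  [finite_I : Finite I]
  [nonempty_I : Nonempty I]
  [finite_J : Finite J]
  [nonempty_J : Nonempty J]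
  /-- the environments -/
  Ω : Type
  [mΩ : MeasurableSpace Ω]
  P : Measure Ω
  [prob : IsProbabilityMeasure P]
  /-- the translations -/
  shift : (Fin d → ℤ) → Ω → Ω
  measurePreserving_shift : ∀ z, MeasurePreserving (shift z) P P
  shift_add : ∀ z z' ω, shift (z + z') ω = shift z (shift z' ω)
  ergodic : ∀ F : Set Ω, MeasurableSet F → (∀ z, shift z '' F = F) → P F = 0 ∨ P F = 1
  /-- the payoffs -/
  payoff : Ω → (Fin d → ℤ) → I → J → ℝ
  measurable_payoff : ∀ z i j, Measurable fun ω => payoff ω z i j
  bounded_payoff : ∃ M : ℝ, ∀ ω z i j, |payoff ω z i j| ≤ M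
  stationary : ∀ ω z z' i j, payoff (shift z ω) z' i j = payoff ω (z + z') i j
  /-- the transition map `q` -/
  move : I → J → Fin d → ℤ

attribute [instance] PercolationGame.finite_I PercolationGame.nonempty_I
  PercolationGame.finite_J PercolationGame.nonempty_J PercolationGame.mΩ PercolationGame.prob

namespace PercolationGame

variable {d : ℕ} (Γ : PercolationGame d)

/-- Past states and actions, in chronological order. -/
abbrev History : Type := List ((Fin d → ℤ) × Γ.I × Γ.J)

/-- Strategies of Player 1: functions of the history and of the current state. -/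
abbrev Strategy₁ : Type := Γ.History → (Fin d → ℤ) → Γ.I

/-- Strategies of Player 2: functions of the history, of the current state and of the current
action of Player 1. -/
abbrev Strategy₂ : Type := Γ.History → (Fin d → ℤ) → Γ.I → Γ.J

/-- The total payoff of the next `n` stages when the history is `h` and the current state
is `z`. -/
noncomputable def total (ω : Γ.Ω) (σ : Γ.Strategy₁) (τ : Γ.Strategy₂) :
    ℕ → Γ.History → (Fin d → ℤ) → ℝ
  | 0, _, _ => 0
  | n + 1, h, z =>
    Γ.payoff ω z (σ h z) (τ h z (σ h z)) +
      total ω σ τ n (h ++ [(z, σ h z, τ h z (σ h z))]) (z + Γ.move (σ h z) (τ h z (σ h z)))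

/-- The value `v_n^ω(z)` of the `n`-stage game. -/
noncomputable def value (ω : Γ.Ω) (n : ℕ) (z : Fin d → ℤ) : ℝ :=
  ⨆ σ : Γ.Strategy₁, ⨅ τ : Γ.Strategy₂, Γ.total ω σ τ n [] z / n

/-- The game is oriented. -/
def Oriented : Prop := ∃ u : Fin d → ℤ, ∀ i j, 0 < ∑ k, Γ.move i j k * u k

/-- The game has a limit value. -/
def HasLimitValue : Prop :=
  ∀ z, ∀ᵐ ω ∂Γ.P, ∃ l : ℝ, Tendsto (fun n => Γ.value ω n z) atTop (𝓝 l)

end PercolationGame

end Pool.Agent.Lib.MP_f59e5e_pr
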