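import Mathlib

/-!
# The space of environments: the square of the 2-adic integers
-/

namespace Pool.Agent.Lib.MP_f59e5e_pr

open MeasureTheory Measure Filter Topology Set
open scoped ENNReal

noncomputable instance instMeasurableSpacePadic : MeasurableSpace ℤ_[2] := borel _

instance instBorelSpacePadic : BorelSpace ℤ_[2] := ⟨rfl⟩

/-- The space of environments. -/
abbrev Env : Type := ℤ_[2] × ℤ_[2]

/-- The Haar probability measure. -/
noncomputable def PP : Measure Env := addHaarMeasure ⊤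

instance : IsAddHaarMeasure PP := by
  unfold PP
  infer_instance

instance : IsProbabilityMeasure PP := ⟨by
  have := addHaarMeasure_self (K₀ := (⊤ : TopologicalSpace.PositiveCompacts Env))
  simpa [PP] using this⟩

/-- The embedding of `ℤ^2`. -/
noncomputable def emb (z : Fin 2 → ℤ) : Env := ((z 0 : ℤ_[2]), (z 1 : ℤ_[2]))

lemma emb_add (z z' : Fin 2 → ℤ) : emb (z + z') = emb z + emb z' := by
  simp [emb]

/-- Translations. -/
noncomputable def tr (z : Fin 2 → ℤ) (ω : Env) : Env := emb z + ω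

lemma tr_add (z z' : Fin 2 → ℤ) (ω : Env) : tr (z + z') ω = tr z (tr z' ω) := by
  simp only [tr, emb_add, add_assoc]

lemma measurePreserving_tr (z : Fin 2 → ℤ) : MeasurePreserving (tr z) PP PP :=
  measurePreserving_add_left PP (emb z)

lemma denseRange_emb : DenseRange emb := by
  have h1 : DenseRange (Prod.map (Int.cast : ℤ → ℤ_[2]) (Int.cast : ℤ → ℤ_[2])) :=
    PadicInt.denseRange_intCast.prodMap PadicInt.denseRange_intCast
  refine h1.mono ?_
  rintro _ ⟨⟨t, x⟩, rfl⟩
  exact ⟨![t, x], by simp [emb]⟩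

lemma ergodic_tr (F : Set Env) (hF : MeasurableSet F) (h : ∀ z, tr z '' F = F) :
    PP F = 0 ∨ PP F = 1 := by
  have hd : Dense {g : Env | (g +ᵥ ·) ⁻¹' F = F} := by
    refine denseRange_emb.mono ?_
    rintro _ ⟨z, rfl⟩
    show (emb z +ᵥ ·) ⁻¹' F = F
    ext ω
    constructor
    · intro hω
      have h1 := h z
      rw [← h1] at hω
      obtain ⟨ω', h2, h3⟩ := hω
      have h4 : ω' = ω := add_left_cancel h3
      rwa [h4] at h2
    · intro hω
      show emb z + ω ∈ F
      rw [← h z]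
      exact ⟨ω, hω, rfl⟩
  have hc := aeconst_of_dense_setOfPred_preimage_vadd_eq (μ := PP) hF.nullMeasurableSet hd
  rw [eventuallyConst_set] at hc
  rcases hc with h1 | h1
  · right
    rw [prob_compl_eq_zero_iff hF |>.symm]
    exact h1
  · left
    rw [measure_eq_zero_iff_ae_notMem]
    exact h1

/-- The homomorphism that gives the phases. -/
noncomputable def ph (e μ : ℕ) : Env →+ ZMod (2 ^ e) :=
  { toFun := fun ω => PadicInt.toZModPow e (ω.1 + 2 ^ μ * ω.2)
    map_zero' := by simp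
    map_add' := by
      intro a b
      rw [← map_add]
      congr 1
      simp only [Prod.fst_add, Prod.snd_add]
      ring }

lemma ph_apply (e μ : ℕ) (ω : Env) : ph e μ ω = PadicInt.toZModPow e (ω.1 + 2 ^ μ * ω.2) := rfl

lemma measurableSet_ph (e μ : ℕ) (c : ZMod (2 ^ e)) : MeasurableSet {ω : Env | ph e μ ω = c} := by
  have h1 : {ω : Env | ph e μ ω = c} =
      {ω : Env | ‖ω.1 + 2 ^ μ * ω.2 - (c.val : ℤ_[2])‖ ≤ (2 : ℝ) ^ (-(e : ℤ))} := by
    ext ω
    simp only [Set.mem_ofPred_eq, ph_apply]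
    have h2 := PadicInt.norm_le_pow_iff_mem_span_pow (p := 2)
      (ω.1 + 2 ^ μ * ω.2 - (c.val : ℤ_[2])) e
    push_cast at h2
    rw [h2]
    have h3 := PadicInt.ker_toZModPow (p := 2) e
    push_cast at h3
    rw [← h3, RingHom.mem_ker, map_sub, map_natCast, ZMod.natCast_zmod_val, sub_eq_zero]
  rw [h1]
  exact (isClosed_le (by fun_prop) (by fun_prop)).measurableSet

lemma measure_ph (e μ : ℕ) (c : ZMod (2 ^ e)) : PP {ω : Env | ph e μ ω = c} = (2 ^ e)⁻¹ := by
  have h0 : ∀ c : ZMod (2 ^ e), PP {ω : Env | ph e μ ω = c} = PP {ω : Env | ph e μ ω = 0} := by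
    intro c
    have h1 : {ω : Env | ph e μ ω = 0} =
        (fun ω => ((c.val : ℤ_[2]), (0 : ℤ_[2])) + ω) ⁻¹' {ω : Env | ph e μ ω = c} := by
      ext ω
      simp only [Set.mem_ofPred_eq, Set.mem_preimage, map_add]
      have h2 : ph e μ ((c.val : ℤ_[2]), (0 : ℤ_[2])) = c := by
        rw [ph_apply]
        simp
      rw [h2]
      simp
    rw [h1, measure_preimage_add]
  have h2 : (Finset.univ : Finset (ZMod (2 ^ e))).sum (fun c => PP {ω : Env | ph e μ ω = c}) =
      1 := by
    rw [← measure_biUnion_finset]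
    · have : ⋃ c ∈ (Finset.univ : Finset (ZMod (2 ^ e))), {ω : Env | ph e μ ω = c} = univ := by
        ext ω
        simp
      rw [this]
      exact measure_univ
    · intro c _ c' _ hcc'
      rw [Function.onFun, Set.disjoint_left]
      intro ω h1 h2
      exact hcc' (h1.symm.trans h2)
    · intro c _
      exact measurableSet_ph e μ c
  rw [Finset.sum_congr rfl (fun c _ => h0 c), Finset.sum_const, Finset.card_univ, ZMod.card,
    nsmul_eq_mul] at h2
  rw [h0 c]
  push_cast at h2
  exact ENNReal.eq_inv_of_mul_eq_one_left (by rw [mul_comm]; exact h2)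

/-- The phase, as a natural number less than `2 ^ e`. -/
noncomputable def phase (e μ : ℕ) (ω : Env) : ℕ := (ph e μ ω).val

lemma phase_lt (e μ : ℕ) (ω : Env) : phase e μ ω < 2 ^ e := ZMod.val_lt _

lemma phase_tr (e μ : ℕ) (z : Fin 2 → ℤ) (ω : Env) :
    (phase e μ (tr z ω) : ℤ) = (phase e μ ω + z 0 + 2 ^ μ * z 1) % 2 ^ e := by
  have h1 : ph e μ (tr z ω) =
      (((phase e μ ω : ℤ) + z 0 + 2 ^ μ * z 1 : ℤ) : ZMod (2 ^ e)) := by
    unfold tr emb phase
    rw [map_add, ph_apply]
    push_cast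
    rw [ZMod.natCast_zmod_val]
    simp only [map_add, map_mul, map_pow, map_intCast, map_ofNat]
    ring
  unfold phase
  rw [h1, ZMod.val_intCast]
  push_cast
  rfl

lemma measurable_phase (e μ : ℕ) : Measurable (phase e μ) := by
  apply measurable_to_countable'
  intro k
  have : phase e μ ⁻¹' {k} = ⋃ c ∈ {c : ZMod (2 ^ e) | c.val = k}, {ω : Env | ph e μ ω = c} := by
    ext ω
    simp [phase]
  rw [this]
  exact MeasurableSet.biUnion (Set.to_countable _) fun c _ => measurableSet_ph e μ c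

lemma measure_phase_le (e μ : ℕ) (S : Finset ℕ) :
    PP {ω : Env | phase e μ ω ∈ S} ≤ S.card * (2 ^ e)⁻¹ := by
  have h1 : {ω : Env | phase e μ ω ∈ S} ⊆ ⋃ k ∈ S, {ω : Env | ph e μ ω = (k : ZMod (2 ^ e))} := by
    intro ω hω
    simp only [Set.mem_ofPred_eq, phase] at hω
    simp only [Set.mem_iUnion]
    exact ⟨_, hω, by simp⟩
  refine (measure_mono h1).trans ((measure_biUnion_finset_le _ _).trans ?_)
  calc ∑ k ∈ S, PP {ω : Env | ph e μ ω = (k : ZMod (2 ^ e))}
      = ∑ k ∈ S, (2 ^ e : ℝ≥0∞)⁻¹ := Finset.sum_congr rfl fun k _ => measure_ph e μ _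
    _ ≤ S.card * (2 ^ e)⁻¹ := by rw [Finset.sum_const, nsmul_eq_mul]

end Pool.Agent.Lib.MP_f59e5e_pr
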