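import Mathlib
import Pool.Agent.Lib.MP_f59e5e_pr.Defs

/-!
# Bounds for the value from explicit strategies
-/

namespace Pool.Agent.Lib.MP_f59e5e_pr

namespace PercolationGame

variable {d : ℕ} (Γ : PercolationGame d)

lemma abs_total_le {M : ℝ} (hM : ∀ ω z i j, |Γ.payoff ω z i j| ≤ M) (ω : Γ.Ω)
    (σ : Γ.Strategy₁) (τ : Γ.Strategy₂) (n : ℕ) (h : Γ.History) (z : Fin d → ℤ) :
    |Γ.total ω σ τ n h z| ≤ n * M := by
  induction n generalizing h z with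
  | zero => simp [total]
  | succ n ih =>
    rw [total]
    refine (abs_add_le _ _).trans ?_
    push_cast
    rw [add_mul, one_mul, add_comm]
    exact add_le_add (ih _ _) (hM _ _ _ _)

lemma abs_mean_le {M : ℝ} (hM : ∀ ω z i j, |Γ.payoff ω z i j| ≤ M) (ω : Γ.Ω)
    (σ : Γ.Strategy₁) (τ : Γ.Strategy₂) (n : ℕ) (h : Γ.History) (z : Fin d → ℤ) :
    |Γ.total ω σ τ n h z / n| ≤ |M| := by
  rcases Nat.eq_zero_or_pos n with h0 | h0
  · subst h0
    simp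
  · have hn : (0 : ℝ) < n := by exact_mod_cast h0
    rw [abs_div, abs_of_pos hn, div_le_iff₀ hn, mul_comm]
    refine (Γ.abs_total_le hM ω σ τ n h z).trans ?_
    exact mul_le_mul_of_nonneg_left (le_abs_self M) hn.le

lemma bddBelow_mean (ω : Γ.Ω) (σ : Γ.Strategy₁) (n : ℕ) (z : Fin d → ℤ) :
    BddBelow (Set.range fun τ : Γ.Strategy₂ => Γ.total ω σ τ n [] z / n) := by
  obtain ⟨M, hM⟩ := Γ.bounded_payoff
  refine ⟨-|M|, ?_⟩
  rintro _ ⟨τ, rfl⟩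
  exact (abs_le.1 (Γ.abs_mean_le hM ω σ τ n [] z)).1

lemma le_value {ω : Γ.Ω} {n : ℕ} {z : Fin d → ℤ} {c : ℝ} (σ : Γ.Strategy₁)
    (h : ∀ τ : Γ.Strategy₂, c ≤ Γ.total ω σ τ n [] z / n) : c ≤ Γ.value ω n z := by
  have hτ : Nonempty Γ.Strategy₂ := ⟨fun _ _ _ => Classical.arbitrary _⟩
  obtain ⟨M, hM⟩ := Γ.bounded_payoff
  refine le_trans (le_ciInf h) (le_ciSup (f := fun σ : Γ.Strategy₁ =>
    ⨅ τ : Γ.Strategy₂, Γ.total ω σ τ n [] z / n) ?_ σ)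
  refine ⟨|M|, ?_⟩
  rintro _ ⟨σ', rfl⟩
  obtain ⟨τ⟩ := hτ
  exact (ciInf_le (Γ.bddBelow_mean ω σ' n z) τ).trans
    (abs_le.1 (Γ.abs_mean_le hM ω σ' τ n [] z)).2

lemma value_le {ω : Γ.Ω} {n : ℕ} {z : Fin d → ℤ} {c : ℝ} (τ : Γ.Strategy₂)
    (h : ∀ σ : Γ.Strategy₁, Γ.total ω σ τ n [] z / n ≤ c) : Γ.value ω n z ≤ c := by
  have hσ : Nonempty Γ.Strategy₁ := ⟨fun _ _ => Classical.arbitrary _⟩
  refine ciSup_le fun σ => ?_
  exact (ciInf_le (Γ.bddBelow_mean ω σ n z) τ).trans (h σ)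

/-- A stationary strategy of Player 1 with a potential function. -/
lemma guarantee₁ {ω : Γ.Ω} (Good : ℕ → (Fin d → ℤ) → Prop) (f : (Fin d → ℤ) → Γ.I)
    (Φ : (Fin d → ℤ) → ℝ) (c : ℝ) (hΦ : ∀ z, 0 ≤ Φ z)
    (hG : ∀ n z, Good (n + 1) z → ∀ j, Good n (z + Γ.move (f z) j) ∧
      c + Φ (z + Γ.move (f z) j) - Φ z ≤ Γ.payoff ω z (f z) j)
    (τ : Γ.Strategy₂) (n : ℕ) (h : Γ.History) (z : Fin d → ℤ) (hz : Good n z) :
    n * c - Φ z ≤ Γ.total ω (fun _ z => f z) τ n h z := by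
  induction n generalizing h z with
  | zero =>
    simp only [total]
    have := hΦ z
    push_cast
    linarith
  | succ n ih =>
    obtain ⟨h1, h2⟩ := hG n z hz (τ h z (f z))
    have h3 := ih (h ++ [(z, f z, τ h z (f z))]) _ h1
    simp only [total]
    push_cast
    linarith

/-- A stationary strategy of Player 2 with a potential function. -/
lemma guarantee₂ {ω : Γ.Ω} (Good : ℕ → (Fin d → ℤ) → Prop) (f : (Fin d → ℤ) → Γ.I → Γ.J)
    (Φ : (Fin d → ℤ) → ℝ) (c : ℝ) (hΦ : ∀ z, 0 ≤ Φ z)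
    (hG : ∀ n z, Good (n + 1) z → ∀ i, Good n (z + Γ.move i (f z i)) ∧
      Γ.payoff ω z i (f z i) ≤ c + Φ z - Φ (z + Γ.move i (f z i)))
    (σ : Γ.Strategy₁) (n : ℕ) (h : Γ.History) (z : Fin d → ℤ) (hz : Good n z) :
    Γ.total ω σ (fun _ z i => f z i) n h z ≤ n * c + Φ z := by
  induction n generalizing h z with
  | zero =>
    simp only [total]
    have := hΦ z
    push_cast
    linarith
  | succ n ih =>
    obtain ⟨h1, h2⟩ := hG n z hz (σ h z)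
    have h3 := ih (h ++ [(z, σ h z, f z (σ h z))]) _ h1
    simp only [total]
    push_cast
    linarith

end PercolationGame

end Pool.Agent.Lib.MP_f59e5e_pr
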