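import Mathlib
import Pool.Agent.Lib.MP_f59e5e_pr.Value
import Pool.Agent.Lib.MP_f59e5e_pr.Space

/-!
# The game and the potential
-/

namespace Pool.Agent.Lib.MP_f59e5e_pr

open MeasureTheory Filter Topology Finset

/-! ### The potential of one highway -/

/-- Potential of a highway of width `m` and period `m * L`, as a function of the phase. -/
noncomputable def psi (m L θ : ℕ) : ℝ :=
  if θ < m then ((m : ℝ) - θ) * (1 - 1 / L) else ((θ : ℝ) - m) / L

lemma psi_nonneg {m L : ℕ} (hL : 1 ≤ L) (θ : ℕ) : 0 ≤ psi m L θ := by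
  have hLR : (1 : ℝ) ≤ L := by exact_mod_cast hL
  unfold psi
  split_ifs with h
  · have h1 : (θ : ℝ) < m := by exact_mod_cast h
    have h2 : 1 / (L : ℝ) ≤ 1 := by
      rw [div_le_one (by linarith)]
      exact hLR
    apply mul_nonneg <;> linarith
  · push Not at h
    have h1 : (m : ℝ) ≤ θ := by exact_mod_cast h
    apply div_nonneg <;> linarith

lemma psi_le {m L θ : ℕ} (hL : 1 ≤ L) (hθ : θ < m * L) : psi m L θ ≤ m := by
  have hLR : (1 : ℝ) ≤ L := by exact_mod_cast hL
  have hm : (0 : ℝ) ≤ m := by positivity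
  have hθ0 : (0 : ℝ) ≤ θ := by positivity
  unfold psi
  split_ifs with h
  · have h1 : (θ : ℝ) < m := by exact_mod_cast h
    have h2 : 0 ≤ 1 / (L : ℝ) := by positivity
    nlinarith
  · rw [div_le_iff₀ (by linarith)]
    have h1 : (θ : ℝ) < m * L := by exact_mod_cast hθ
    linarith

lemma psi_step {m L θ : ℕ} (hm : 1 ≤ m) (hL : 2 ≤ L) (hθ : θ < m * L) :
    psi m L (if θ + 1 < m * L then θ + 1 else 0) - psi m L θ =
      1 / L - if θ < m then 1 else 0 := by
  have hLR : (2 : ℝ) ≤ L := by exact_mod_cast hL
  have hL0 : (L : ℝ) ≠ 0 := by linarith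
  have hmL : m + m ≤ m * L := by nlinarith
  unfold psi
  by_cases h1 : θ + 1 < m * L
  · rw [if_pos h1]
    by_cases h2 : θ + 1 < m
    · rw [if_pos h2, if_pos (by omega), if_pos (by omega)]
      push_cast
      ring
    · by_cases h3 : θ < m
      · have h4 : θ + 1 = m := by omega
        rw [if_neg h2, if_pos h3, if_pos h3, h4]
        have h5 : (m : ℝ) = θ + 1 := by exact_mod_cast h4.symm
        rw [h5]
        ring
      · rw [if_neg h2, if_neg h3, if_neg h3]
        push_cast
        ring
  · rw [if_neg h1]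
    have h2 : θ + 1 = m * L := by omega
    rw [if_pos (by omega), if_neg (by omega), if_neg (by omega)]
    have h3 : (θ : ℝ) = m * L - 1 := by
      have : ((θ + 1 : ℕ) : ℝ) = ((m * L : ℕ) : ℝ) := by rw [h2]
      push_cast at this
      linarith
    rw [h3]
    push_cast
    field_simp
    ring

/-! ### Parameters -/

/-- Inverse speed (and width) of the highways of scale `j`. -/
def mm (s j : ℕ) : ℕ := 2 ^ (s * (j + 1))

/-- Spacing of the highways of scale `j`. -/
def LL (s j : ℕ) : ℕ := 2 ^ (s * (j + 1) ^ 2)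

/-- Period of the highways of scale `j`, which is also the horizon of scale `j`. -/
def MM (s j : ℕ) : ℕ := 2 ^ (s * (j + 1) + s * (j + 1) ^ 2)

lemma MM_eq (s j : ℕ) : MM s j = mm s j * LL s j := by
  unfold MM mm LL
  rw [pow_add]

lemma mm_pos (s j : ℕ) : 1 ≤ mm s j := Nat.one_le_two_pow

lemma LL_pos (s j : ℕ) : 1 ≤ LL s j := Nat.one_le_two_pow

lemma MM_pos (s j : ℕ) : 1 ≤ MM s j := Nat.one_le_two_pow

lemma LL_two {s : ℕ} (hs : 1 ≤ s) (j : ℕ) : 2 ≤ LL s j := by
  unfold LL
  calc 2 = 2 ^ 1 := (pow_one 2).symm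
    _ ≤ 2 ^ (s * (j + 1) ^ 2) := by
        apply Nat.pow_le_pow_right (by norm_num)
        exact Nat.one_le_iff_ne_zero.2 (by positivity)

lemma MM_mono (s : ℕ) {i j : ℕ} (h : i ≤ j) : MM s i ≤ MM s j := by
  unfold MM
  apply Nat.pow_le_pow_right (by norm_num)
  gcongr

/-- The phase of scale `j`. -/
noncomputable def theta (s j : ℕ) (ω : Env) : ℕ :=
  phase (s * (j + 1) + s * (j + 1) ^ 2) (s * (j + 1)) ω

lemma theta_lt (s j : ℕ) (ω : Env) : theta s j ω < mm s j * LL s j := by
  rw [← MM_eq]
  exact phase_lt _ _ _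

/-- `j` is the largest scale of a highway at the origin. -/
def Lev (s : ℕ) (ω : Env) (j : ℕ) : Prop := theta s j ω < mm s j ∧ ∀ i > j, mm s i ≤ theta s i ω

/-- The move without a step to the left. -/
def stay : Fin 2 → ℤ := ![1, 0]

/-- The move with a step to the left. -/
def left : Fin 2 → ℤ := ![1, -1]

lemma theta_stay (s j : ℕ) (ω : Env) : theta s j (tr stay ω) =
    if theta s j ω + 1 < mm s j * LL s j then theta s j ω + 1 else 0 := by
  have h1 := phase_tr (s * (j + 1) + s * (j + 1) ^ 2) (s * (j + 1)) stay ω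
  have h2 := theta_lt s j ω
  have h3 : (2 : ℤ) ^ (s * (j + 1) + s * (j + 1) ^ 2) = ((mm s j * LL s j : ℕ) : ℤ) := by
    rw [← MM_eq]
    unfold MM
    push_cast
    rfl
  rw [h3] at h1
  simp only [stay, Matrix.cons_val_zero, Matrix.cons_val_one, mul_zero, add_zero] at h1
  change (theta s j (tr stay ω) : ℤ) = ((theta s j ω : ℤ) + 1) % _ at h1
  split_ifs with h
  · rw [Int.emod_eq_of_lt (by omega) (by omega)] at h1
    omega
  · have h4 : theta s j ω + 1 = mm s j * LL s j := by omega
    have h5 : ((theta s j ω : ℤ) + 1) = ((mm s j * LL s j : ℕ) : ℤ) := by exact_mod_cast h4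
    rw [h5, Int.emod_self] at h1
    omega

lemma theta_left (s j : ℕ) (ω : Env) (h : mm s j ≤ theta s j ω) :
    theta s j (tr left ω) = theta s j ω + 1 - mm s j := by
  have h1 := phase_tr (s * (j + 1) + s * (j + 1) ^ 2) (s * (j + 1)) left ω
  have h2 := theta_lt s j ω
  have h3 : (2 : ℤ) ^ (s * (j + 1) + s * (j + 1) ^ 2) = ((mm s j * LL s j : ℕ) : ℤ) := by
    rw [← MM_eq]
    unfold MM
    push_cast
    rfl
  have h4 : (2 : ℤ) ^ (s * (j + 1)) = (mm s j : ℤ) := by
    unfold mm
    push_cast
    rfl
  have h5 := mm_pos s j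
  rw [h3, h4] at h1
  simp only [left, Matrix.cons_val_zero, Matrix.cons_val_one, mul_neg, mul_one] at h1
  change (theta s j (tr left ω) : ℤ) = ((theta s j ω : ℤ) + 1 + -(mm s j : ℤ)) % _ at h1
  rw [Int.emod_eq_of_lt (by omega) (by omega)] at h1
  omega

/-! ### The potential -/

/-- The constant of the potential. -/
def CC (s k : ℕ) : ℕ := 1 + ∑ j ∈ range k, mm s j

/-- The potential of scale `k`. -/
noncomputable def Pot (s k : ℕ) (ω : Env) : ℝ :=
  CC s k * (theta s k ω / mm s k) + ∑ j ∈ range k, psi (mm s j) (LL s j) (theta s j ω)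

/-- The part of the loss that comes from the smaller scales. -/
noncomputable def del (s k : ℕ) : ℝ := ∑ j ∈ range k, 1 / (LL s j : ℝ)

/-- The number of smaller scales that have a highway at the origin. -/
noncomputable def cnt (s k : ℕ) (ω : Env) : ℝ :=
  ∑ j ∈ range k, if theta s j ω < mm s j then 1 else 0

lemma cnt_nonneg (s k : ℕ) (ω : Env) : 0 ≤ cnt s k ω := by
  unfold cnt
  apply sum_nonneg
  intro j _
  split_ifs <;> norm_num

lemma one_le_cnt {s k j : ℕ} {ω : Env} (hj : j < k) (h : theta s j ω < mm s j) :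
    1 ≤ cnt s k ω := by
  unfold cnt
  have := single_le_sum (f := fun j => if theta s j ω < mm s j then (1 : ℝ) else 0)
    (fun i _ => by split_ifs <;> norm_num) (mem_range.2 hj)
  simp only [if_pos h] at this
  exact this

lemma Pot_nonneg (s k : ℕ) (ω : Env) : 0 ≤ Pot s k ω := by
  unfold Pot
  have := sum_nonneg (s := range k) (f := fun j => psi (mm s j) (LL s j) (theta s j ω))
    (fun j _ => psi_nonneg (LL_pos s j) _)
  positivity

lemma Pot_le (s k : ℕ) (ω : Env) : Pot s k ω ≤ CC s k * (LL s k + 1) := by
  unfold Pot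
  have hm : (0 : ℝ) < mm s k := by exact_mod_cast mm_pos s k
  have h1 : (theta s k ω : ℝ) / mm s k ≤ LL s k := by
    rw [div_le_iff₀ hm]
    have : ((theta s k ω : ℕ) : ℝ) < ((mm s k * LL s k : ℕ) : ℝ) := by
      exact_mod_cast theta_lt s k ω
    push_cast at this
    linarith
  have h2 : ∑ j ∈ range k, psi (mm s j) (LL s j) (theta s j ω) ≤ CC s k := by
    calc _ ≤ ∑ j ∈ range k, (mm s j : ℝ) :=
          sum_le_sum fun j _ => psi_le (LL_pos s j) (theta_lt s j ω)
      _ ≤ CC s k := by
          unfold CC
          push_cast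
          linarith
  have h3 : (0 : ℝ) ≤ CC s k := by positivity
  nlinarith

lemma Pot_stay {s : ℕ} (hs : 1 ≤ s) (k : ℕ) (ω : Env) :
    Pot s k (tr stay ω) ≤ Pot s k ω + CC s k / mm s k + del s k - cnt s k ω := by
  unfold Pot
  have hm : (0 : ℝ) < mm s k := by exact_mod_cast mm_pos s k
  have hC : (0 : ℝ) ≤ CC s k := by positivity
  have h1 : (theta s k (tr stay ω) : ℝ) ≤ theta s k ω + 1 := by
    rw [theta_stay]
    split_ifs
    · push_cast
      exact le_refl _
    · push_cast
      positivity
  have h2 : (CC s k : ℝ) * (theta s k (tr stay ω) / mm s k) ≤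
      CC s k * (theta s k ω / mm s k) + CC s k / mm s k := by
    calc (CC s k : ℝ) * (theta s k (tr stay ω) / mm s k)
        ≤ CC s k * ((theta s k ω + 1) / mm s k) := by gcongr
      _ = _ := by ring
  have h3 : ∑ j ∈ range k, psi (mm s j) (LL s j) (theta s j (tr stay ω)) =
      ∑ j ∈ range k, psi (mm s j) (LL s j) (theta s j ω) + del s k - cnt s k ω := by
    unfold del cnt
    rw [← sum_add_distrib, ← sum_sub_distrib]
    apply sum_congr rfl
    intro j _
    have h4 := psi_step (mm_pos s j) (LL_two hs j) (theta_lt s j ω)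
    rw [theta_stay]
    linarith
  rw [h3]
  linarith

lemma Pot_left (s k : ℕ) {ω : Env} (h : mm s k ≤ theta s k ω) :
    Pot s k (tr left ω) ≤ Pot s k ω + CC s k / mm s k - 1 := by
  unfold Pot
  have hm : (0 : ℝ) < mm s k := by exact_mod_cast mm_pos s k
  have h1 : (theta s k (tr left ω) : ℝ) = theta s k ω + 1 - mm s k := by
    rw [theta_left s k ω h, Nat.cast_sub (by omega)]
    push_cast
    ring
  have h2 : (CC s k : ℝ) * (theta s k (tr left ω) / mm s k) =
      CC s k * (theta s k ω / mm s k) + CC s k / mm s k - CC s k := by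
    rw [h1]
    field_simp
  have h3 : ∑ j ∈ range k, psi (mm s j) (LL s j) (theta s j (tr left ω)) ≤
      ∑ j ∈ range k, psi (mm s j) (LL s j) (theta s j ω) + (CC s k - 1) := by
    have h4 : ∑ j ∈ range k, psi (mm s j) (LL s j) (theta s j (tr left ω)) ≤
        ∑ j ∈ range k, (mm s j : ℝ) :=
      sum_le_sum fun j _ => psi_le (LL_pos s j) (theta_lt s j _)
    have h5 : 0 ≤ ∑ j ∈ range k, psi (mm s j) (LL s j) (theta s j ω) :=
      sum_nonneg fun j _ => psi_nonneg (LL_pos s j) _
    have h6 : (CC s k : ℝ) - 1 = ∑ j ∈ range k, (mm s j : ℝ) := by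
      unfold CC
      push_cast
      ring
    rw [h6]
    linarith
  linarith

/-! ### Regions without highways of larger scales -/

/-- No highway of a scale larger than `k` is met during the next `n` stages. -/
def Good (s k n : ℕ) (ω : Env) : Prop :=
  ∀ i > k, mm s i * (n + 1) ≤ theta s i ω ∧ theta s i ω + n < MM s i

lemma Good.mm_le {s k n : ℕ} {ω : Env} (h : Good s k n ω) {i : ℕ} (hi : k < i) :
    mm s i ≤ theta s i ω := (Nat.le_mul_of_pos_right _ (Nat.succ_pos n)).trans (h i hi).1

lemma Good.stay {s k n : ℕ} {ω : Env} (h : Good s k (n + 1) ω) : Good s k n (tr stay ω) := by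
  intro i hi
  obtain ⟨h1, h2⟩ := h i hi
  rw [MM_eq] at h2 ⊢
  rw [theta_stay, if_pos (by omega)]
  have h3 : mm s i * (n + 1) ≤ mm s i * (n + 1 + 1) := Nat.mul_le_mul_left _ (by omega)
  omega

lemma Good.left {s k n : ℕ} {ω : Env} (h : Good s k (n + 1) ω) : Good s k n (tr left ω) := by
  intro i hi
  have h0 := h.mm_le hi
  obtain ⟨h1, h2⟩ := h i hi
  rw [theta_left s i ω h0]
  have h3 : mm s i * (n + 1 + 1) = mm s i * (n + 1) + mm s i := by ring
  have h4 := mm_pos s i
  omega

/-! ### The game -/

open Classical in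
/-- The payoff at the origin. The first action is `true` if Player 1 proposes a step to the left
and the second action is `true` if Player 2 accepts it. -/
noncomputable def pay (s : ℕ) (ω : Env) (i j : Bool) : ℝ :=
  if i then (if j then 0 else (if ∃ k, Even k ∧ Lev s ω k then 0 else 1))
  else (if ∃ k, Odd k ∧ Lev s ω k then 1 else 0)

lemma measurableSet_Lev (s k : ℕ) : MeasurableSet {ω : Env | Lev s ω k} := by
  have h1 : ∀ j, Measurable (theta s j) := fun j => measurable_phase _ _
  have : {ω : Env | Lev s ω k} = {ω | theta s k ω < mm s k} ∩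
      ⋂ i, {ω | i > k → mm s i ≤ theta s i ω} := by
    ext ω
    simp [Lev]
  rw [this]
  refine (measurableSet_lt (h1 k) measurable_const).inter (MeasurableSet.iInter fun i => ?_)
  by_cases hi : i > k
  · simp only [hi, true_imp_iff]
    exact measurableSet_le measurable_const (h1 i)
  · simp only [hi, false_imp_iff]
    exact MeasurableSet.univ

lemma measurable_pay (s : ℕ) (i j : Bool) : Measurable fun ω => pay s ω i j := by
  classical
  have h1 : MeasurableSet {ω : Env | ∃ k, Even k ∧ Lev s ω k} := by
    have : {ω : Env | ∃ k, Even k ∧ Lev s ω k} = ⋃ k ∈ {k : ℕ | Even k}, {ω | Lev s ω k} := by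
      ext ω
      simp
    rw [this]
    exact MeasurableSet.biUnion (Set.to_countable _) fun k _ => measurableSet_Lev s k
  have h2 : MeasurableSet {ω : Env | ∃ k, Odd k ∧ Lev s ω k} := by
    have : {ω : Env | ∃ k, Odd k ∧ Lev s ω k} = ⋃ k ∈ {k : ℕ | Odd k}, {ω | Lev s ω k} := by
      ext ω
      simp
    rw [this]
    exact MeasurableSet.biUnion (Set.to_countable _) fun k _ => measurableSet_Lev s k
  unfold pay
  cases i
  · simp only [Bool.false_eq_true, if_false]
    exact Measurable.ite h2 measurable_const measurable_const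
  · cases j
    · simp only [Bool.false_eq_true, if_false, if_true]
      exact Measurable.ite h1 measurable_const measurable_const
    · simp only [if_true]
      exact measurable_const

lemma pay_mem (s : ℕ) (ω : Env) (i j : Bool) : pay s ω i j = 0 ∨ pay s ω i j = 1 := by
  unfold pay
  split_ifs <;> simp

/-- The game. -/
noncomputable def game (s : ℕ) : PercolationGame 2 where
  I := Bool
  J := Bool
  Ω := Env
  P := PP
  shift := tr
  measurePreserving_shift := measurePreserving_tr
  shift_add := tr_add
  ergodic := ergodic_tr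
  payoff := fun ω z i j => pay s (tr z ω) i j
  measurable_payoff := fun z i j => (measurable_pay s i j).comp (measurePreserving_tr z).measurable
  bounded_payoff := ⟨1, fun ω z i j => by
    rcases pay_mem s (tr z ω) i j with h | h <;> rw [h] <;> norm_num⟩
  stationary := fun ω z z' i j => by rw [add_comm z z', tr_add]
  move := fun i j => if i && j then left else stay

lemma game_oriented (s : ℕ) : (game s).Oriented := by
  refine ⟨![1, 0], ?_⟩
  intro i j
  simp only [game]
  split_ifs <;> simp [left, stay]

/-- The strategies of both players: propose (accept) if and only if the origin is not on a highway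
of scale `k`. -/
noncomputable def act (s k : ℕ) (ω : Env) : Bool := decide (mm s k ≤ theta s k ω)

lemma player1 {s : ℕ} (hs : 1 ≤ s) {k : ℕ} (hk : Odd k) {n : ℕ} {ω : Env}
    (h : Good s k (n + 1) ω) (j : Bool) :
    Good s k n (tr (if act s k ω && j then left else stay) ω) ∧
    (1 - del s k - CC s k / mm s k) + Pot s k (tr (if act s k ω && j then left else stay) ω) -
      Pot s k ω ≤ pay s ω (act s k ω) j := by
  classical
  have hcnt := cnt_nonneg s k ω
  have hst := Pot_stay hs k ω
  by_cases hθ : mm s k ≤ theta s k ω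
  · have ha : act s k ω = true := by simp [act, hθ]
    rw [ha]
    cases j
    · simp only [Bool.and_false, Bool.false_eq_true, if_false]
      refine ⟨h.stay, ?_⟩
      unfold pay
      simp only [Bool.false_eq_true, if_false, if_true]
      split_ifs with hex
      · obtain ⟨j, hj, hlev⟩ := hex
        have hjk : j < k := by
          by_contra hcon
          rcases (not_lt.1 hcon).lt_or_eq with h1 | h1
          · exact absurd hlev.1 (not_lt.2 (h.mm_le h1))
          · rw [← h1] at hj
            exact (Nat.not_even_iff_odd.2 hk) hj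
        have h1 := one_le_cnt hjk hlev.1
        linarith
      · linarith
    · simp only [Bool.and_self, if_true]
      refine ⟨h.left, ?_⟩
      unfold pay
      simp only [if_true]
      have h1 := Pot_left s k hθ
      have h2 : 0 ≤ del s k := sum_nonneg fun j _ => by positivity
      linarith
  · have ha : act s k ω = false := by simp [act, hθ]
    rw [ha]
    simp only [Bool.false_and, Bool.false_eq_true, if_false]
    refine ⟨h.stay, ?_⟩
    unfold pay
    simp only [Bool.false_eq_true, if_false]
    have hex : ∃ k, Odd k ∧ Lev s ω k := ⟨k, hk, not_le.1 hθ, fun i hi => h.mm_le hi⟩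
    rw [if_pos hex]
    linarith

lemma player2 {s : ℕ} (hs : 1 ≤ s) {k : ℕ} (hk : Even k) {n : ℕ} {ω : Env}
    (h : Good s k (n + 1) ω) (i : Bool) :
    Good s k n (tr (if i && act s k ω then left else stay) ω) ∧
    pay s ω i (act s k ω) ≤ (del s k + CC s k / mm s k) + Pot s k ω -
      Pot s k (tr (if i && act s k ω then left else stay) ω) := by
  classical
  have hcnt := cnt_nonneg s k ω
  have hst := Pot_stay hs k ω
  have h2 : 0 ≤ del s k := sum_nonneg fun j _ => by positivity
  cases i
  · simp only [Bool.false_and, Bool.false_eq_true, if_false]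
    refine ⟨h.stay, ?_⟩
    unfold pay
    simp only [Bool.false_eq_true, if_false]
    split_ifs with hex
    · obtain ⟨j, hj, hlev⟩ := hex
      have hjk : j < k := by
        by_contra hcon
        rcases (not_lt.1 hcon).lt_or_eq with h1 | h1
        · exact absurd hlev.1 (not_lt.2 (h.mm_le h1))
        · rw [← h1] at hj
          exact (Nat.not_odd_iff_even.2 hk) hj
      have h1 := one_le_cnt hjk hlev.1
      linarith
    · linarith
  · simp only [Bool.true_and]
    by_cases hθ : mm s k ≤ theta s k ω
    · have ha : act s k ω = true := by simp [act, hθ]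
      rw [ha]
      simp only [if_true]
      refine ⟨h.left, ?_⟩
      unfold pay
      simp only [if_true]
      have h1 := Pot_left s k hθ
      linarith
    · have ha : act s k ω = false := by simp [act, hθ]
      rw [ha]
      simp only [Bool.false_eq_true, if_false]
      refine ⟨h.stay, ?_⟩
      unfold pay
      simp only [Bool.false_eq_true, if_false, if_true]
      have hex : ∃ k, Even k ∧ Lev s ω k := ⟨k, hk, not_le.1 hθ, fun i hi => h.mm_le hi⟩
      rw [if_pos hex]
      linarith

end Pool.Agent.Lib.MP_f59e5e_pr
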