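import Mathlib
import Pool.Agent.Lib.MP_f59e5e_pr.Game

/-!
# Oscillation of the values
-/

namespace Pool.Agent.Lib.MP_f59e5e_pr

open MeasureTheory Filter Topology Finset
open scoped ENNReal

/-! ### Numerical bounds -/

lemma sum_mm_le {s : ℕ} (hs : 1 ≤ s) (k : ℕ) : ∑ j ∈ range k, mm s j ≤ 2 * 2 ^ (s * k) := by
  induction k with
  | zero => simp
  | succ k ih =>
    rw [sum_range_succ]
    have h1 : 2 * 2 ^ (s * k) ≤ 2 ^ (s * (k + 1)) := by
      rw [← pow_succ']
      apply Nat.pow_le_pow_right (by norm_num)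
      rw [mul_add, mul_one]
      omega
    unfold mm at ih ⊢
    omega

lemma CC_div_le {s : ℕ} (hs : 1 ≤ s) (k : ℕ) : (CC s k : ℝ) / mm s k ≤ 3 * (1 / 2) ^ s := by
  have hm : (0 : ℝ) < mm s k := by exact_mod_cast mm_pos s k
  rw [div_le_iff₀ hm]
  have h1 : CC s k ≤ 3 * 2 ^ (s * k) := by
    have h2 := sum_mm_le hs k
    have h3 : 1 ≤ 2 ^ (s * k) := Nat.one_le_two_pow
    unfold CC
    omega
  have h2 : (CC s k : ℝ) ≤ 3 * 2 ^ (s * k) := by exact_mod_cast h1
  refine h2.trans (le_of_eq ?_)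
  unfold mm
  push_cast
  rw [mul_add, mul_one, pow_add]
  have h3 : ((1 : ℝ) / 2) ^ s * 2 ^ s = 1 := by
    rw [← mul_pow]
    norm_num
  calc (3 : ℝ) * 2 ^ (s * k) = 3 * 2 ^ (s * k) * ((1 / 2) ^ s * 2 ^ s) := by rw [h3, mul_one]
    _ = _ := by ring

lemma del_le {s : ℕ} (hs : 1 ≤ s) (k : ℕ) : del s k ≤ 2 * (1 / 2) ^ s := by
  have hx : ((1 : ℝ) / 2) ^ s ≤ 1 / 2 := by
    calc ((1 : ℝ) / 2) ^ s ≤ (1 / 2) ^ 1 := pow_le_pow_of_le_one (by norm_num) (by norm_num) hs
      _ = 1 / 2 := pow_one _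
  have hx0 : (0 : ℝ) < (1 / 2) ^ s := by positivity
  set x : ℝ := (1 / 2) ^ s with hxdef
  have h1 : ∀ j, 1 / (LL s j : ℝ) ≤ x ^ (j + 1) := by
    intro j
    have h2 : x ^ (j + 1) = 1 / (2 : ℝ) ^ (s * (j + 1)) := by
      rw [hxdef, ← pow_mul, one_div_pow]
    rw [h2]
    unfold LL
    push_cast
    apply one_div_le_one_div_of_le (by positivity)
    apply pow_le_pow_right₀ (by norm_num)
    apply Nat.mul_le_mul_left
    nlinarith
  have h2 : ∀ k : ℕ, ∑ j ∈ range k, x ^ (j + 1) ≤ 2 * x * (1 - x ^ k) := by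
    intro k
    induction k with
    | zero => simp
    | succ k ih =>
      rw [sum_range_succ]
      have h3 : 0 < x ^ (k + 1) := by positivity
      have h4 : 2 * x * (1 - x ^ (k + 1)) - 2 * x * (1 - x ^ k) = x ^ (k + 1) * (2 * (1 - x)) := by
        ring
      nlinarith
  unfold del
  calc _ ≤ ∑ j ∈ range k, x ^ (j + 1) := sum_le_sum fun j _ => h1 j
    _ ≤ 2 * x * (1 - x ^ k) := h2 k
    _ ≤ 2 * x := by
        have : 0 < x ^ k := by positivity
        nlinarith

/-! ### The values at the horizon of scale `k` -/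

lemma loss_bound {s : ℕ} (hs : 1 ≤ s) (k : ℕ) (ω : Env) :
    del s k + CC s k / mm s k + Pot s k ω / MM s k ≤ 11 * (1 / 2) ^ s := by
  have hm : (0 : ℝ) < mm s k := by exact_mod_cast mm_pos s k
  have hL : (1 : ℝ) ≤ LL s k := by exact_mod_cast LL_pos s k
  have h1 := CC_div_le hs k
  have h2 := del_le hs k
  have h3 : Pot s k ω / MM s k ≤ 2 * (CC s k / mm s k) := by
    rw [MM_eq]
    push_cast
    have hC : (0 : ℝ) ≤ CC s k := by positivity
    calc Pot s k ω / (mm s k * LL s k) ≤ CC s k * (LL s k + 1) / (mm s k * LL s k) := by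
          apply div_le_div_of_nonneg_right (Pot_le s k ω) (by positivity)
      _ ≤ CC s k * (2 * LL s k) / (mm s k * LL s k) := by
          apply div_le_div_of_nonneg_right _ (by positivity)
          apply mul_le_mul_of_nonneg_left _ hC
          linarith
      _ = 2 * (CC s k / mm s k) := by
          field_simp
  linarith

lemma value_odd {s : ℕ} (hs : 1 ≤ s) {k : ℕ} (hk : Odd k) {ω : Env} {z : Fin 2 → ℤ}
    (h : Good s k (MM s k) (tr z ω)) :
    1 - 11 * (1 / 2) ^ s ≤ (game s).value ω (MM s k) z := by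
  have hM : (0 : ℝ) < MM s k := by exact_mod_cast MM_pos s k
  refine (game s).le_value (fun _ z => act s k (tr z ω)) fun τ => ?_
  have h1 := (game s).guarantee₁ (ω := ω) (fun n z => Good s k n (tr z ω))
    (fun z => act s k (tr z ω)) (fun z => Pot s k (tr z ω))
    (1 - del s k - CC s k / mm s k) (fun z => Pot_nonneg s k _) ?_ τ (MM s k) [] z h
  · rw [le_div_iff₀ hM]
    have h2 := loss_bound hs k (tr z ω)
    have h3 : Pot s k (tr z ω) / MM s k * MM s k = Pot s k (tr z ω) := by field_simp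
    nlinarith
  · intro n z hz j
    have h2 := player1 hs hk hz j
    have h3 : tr (z + (game s).move (act s k (tr z ω)) j) ω =
        tr (if act s k (tr z ω) && j then left else stay) (tr z ω) := by
      rw [add_comm, tr_add]
      rfl
    rw [h3]
    exact h2

lemma value_even {s : ℕ} (hs : 1 ≤ s) {k : ℕ} (hk : Even k) {ω : Env} {z : Fin 2 → ℤ}
    (h : Good s k (MM s k) (tr z ω)) :
    (game s).value ω (MM s k) z ≤ 11 * (1 / 2) ^ s := by
  have hM : (0 : ℝ) < MM s k := by exact_mod_cast MM_pos s k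
  refine (game s).value_le (fun _ z _ => act s k (tr z ω)) fun σ => ?_
  have h1 := (game s).guarantee₂ (ω := ω) (fun n z => Good s k n (tr z ω))
    (fun z _ => act s k (tr z ω)) (fun z => Pot s k (tr z ω))
    (del s k + CC s k / mm s k) (fun z => Pot_nonneg s k _) ?_ σ (MM s k) [] z h
  · rw [div_le_iff₀ hM]
    have h2 := loss_bound hs k (tr z ω)
    have h3 : Pot s k (tr z ω) / MM s k * MM s k = Pot s k (tr z ω) := by field_simp
    nlinarith
  · intro n z hz i
    have h2 := player2 hs hk hz i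
    have h3 : tr (z + (game s).move i (act s k (tr z ω))) ω =
        tr (if i && act s k (tr z ω) then left else stay) (tr z ω) := by
      rw [add_comm, tr_add]
      rfl
    rw [h3]
    exact h2

/-! ### Larger scales are not met -/

/-- Phases of scale `k + 1` for which the highways of that scale may be met before time
`MM s k`. -/
def badSet (s k : ℕ) : Finset ℕ :=
  range (mm s (k + 1) * (MM s k + 1)) ∪ Ico (MM s (k + 1) - MM s k) (MM s (k + 1))

lemma card_badSet (s k : ℕ) (hs : 1 ≤ s) : (badSet s k).card * 2 ^ k ≤ 3 * MM s (k + 1) := by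
  have h1 : (badSet s k).card ≤ 3 * (mm s (k + 1) * MM s k) := by
    refine (card_union_le _ _).trans ?_
    rw [card_range, Nat.card_Ico]
    have h2 := mm_pos s (k + 1)
    have h3 := MM_pos s k
    have h4 : MM s k ≤ mm s (k + 1) * MM s k := Nat.le_mul_of_pos_left _ h2
    have h5 : mm s (k + 1) ≤ mm s (k + 1) * MM s k := Nat.le_mul_of_pos_right _ h3
    rw [mul_add, mul_one]
    omega
  have h2 : mm s (k + 1) * MM s k * 2 ^ k ≤ MM s (k + 1) := by
    unfold mm MM
    rw [← pow_add, ← pow_add]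
    apply Nat.pow_le_pow_right (by norm_num)
    nlinarith
  calc (badSet s k).card * 2 ^ k ≤ 3 * (mm s (k + 1) * MM s k) * 2 ^ k :=
        Nat.mul_le_mul_right _ h1
    _ = 3 * (mm s (k + 1) * MM s k * 2 ^ k) := by ring
    _ ≤ _ := Nat.mul_le_mul_left _ h2

lemma measure_bad {s : ℕ} (hs : 1 ≤ s) (z : Fin 2 → ℤ) (k : ℕ) :
    PP {ω : Env | theta s (k + 1) (tr z ω) ∈ badSet s k} ≤ 3 * (2⁻¹ : ℝ≥0∞) ^ k := by
  have h1 : PP {ω : Env | theta s (k + 1) (tr z ω) ∈ badSet s k} =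
      PP {ω : Env | theta s (k + 1) ω ∈ badSet s k} := by
    refine (measurePreserving_tr z).measure_preimage (s := {ω : Env |
      theta s (k + 1) ω ∈ badSet s k}) ?_
    have : {ω : Env | theta s (k + 1) ω ∈ badSet s k} =
        theta s (k + 1) ⁻¹' (badSet s k : Set ℕ) := rfl
    rw [this]
    exact ((measurable_phase _ _) (Finset.measurableSet _)).nullMeasurableSet
  rw [h1]
  refine (measure_phase_le _ _ _).trans ?_
  have h2 := card_badSet s k hs
  set e := s * (k + 1 + 1) + s * (k + 1 + 1) ^ 2 with he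
  have hk0 : (2 : ℝ≥0∞) ^ k ≠ 0 := by positivity
  have hkt : (2 : ℝ≥0∞) ^ k ≠ ⊤ := by finiteness
  have he0 : (2 : ℝ≥0∞) ^ e ≠ 0 := by positivity
  have het : (2 : ℝ≥0∞) ^ e ≠ ⊤ := by finiteness
  have h3 : ((badSet s k).card : ℝ≥0∞) * 2 ^ k ≤ 3 * 2 ^ e := by
    have : (((badSet s k).card * 2 ^ k : ℕ) : ℝ≥0∞) ≤ ((3 * MM s (k + 1) : ℕ) : ℝ≥0∞) := by
      exact_mod_cast h2
    unfold MM at this
    push_cast at this
    exact this
  calc ((badSet s k).card : ℝ≥0∞) * (2 ^ e)⁻¹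
      = ((badSet s k).card * 2 ^ k) * ((2 ^ k)⁻¹ * (2 ^ e)⁻¹) := by
        rw [mul_assoc, ← mul_assoc (2 ^ k) (2 ^ k)⁻¹, ENNReal.mul_inv_cancel hk0 hkt, one_mul]
    _ ≤ (3 * 2 ^ e) * ((2 ^ k)⁻¹ * (2 ^ e)⁻¹) := mul_le_mul_left h3 _
    _ = 3 * (2 ^ k)⁻¹ * (2 ^ e * (2 ^ e)⁻¹) := by ring
    _ = 3 * (2⁻¹ : ℝ≥0∞) ^ k := by
        rw [ENNReal.mul_inv_cancel he0 het, mul_one, ENNReal.inv_pow]

lemma eventually_good {s : ℕ} (hs : 1 ≤ s) (z : Fin 2 → ℤ) :
    ∀ᵐ ω ∂PP, ∀ᶠ k in atTop, Good s k (MM s k) (tr z ω) := by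
  have hsum : ∑' k, PP {ω : Env | theta s (k + 1) (tr z ω) ∈ badSet s k} ≠ ⊤ := by
    have h1 : ∑' k, PP {ω : Env | theta s (k + 1) (tr z ω) ∈ badSet s k} ≤
        ∑' k : ℕ, 3 * (2⁻¹ : ℝ≥0∞) ^ k := ENNReal.tsum_le_tsum fun k => measure_bad hs z k
    refine ne_top_of_le_ne_top ?_ h1
    rw [ENNReal.tsum_mul_left, ENNReal.tsum_geometric, ENNReal.one_sub_inv_two, inv_inv]
    finiteness
  filter_upwards [ae_eventually_notMem hsum] with ω hω
  obtain ⟨K, hK⟩ := eventually_atTop.1 hω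
  refine eventually_atTop.2 ⟨K, fun k hk => ?_⟩
  intro i hi
  obtain ⟨j, rfl⟩ : ∃ j, i = j + 1 := ⟨i - 1, by omega⟩
  have h1 := hK j (by omega)
  simp only [badSet, mem_union, mem_range, mem_Ico, not_or, not_and,
    not_lt] at h1
  obtain ⟨h2, h3⟩ := h1
  have h4 : MM s k ≤ MM s j := MM_mono s (by omega)
  have h5 : theta s (j + 1) (tr z ω) < MM s (j + 1) := phase_lt _ _ _
  constructor
  · exact (Nat.mul_le_mul_left _ (by omega)).trans h2
  · by_contra hcon
    have h6 := h3 (by omega)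
    omega

/-- For every vertex, almost surely the values oscillate. -/
theorem oscillation {s : ℕ} (hs : 1 ≤ s) (z : Fin 2 → ℤ) :
    ∀ᵐ ω ∂PP, (∃ᶠ n in atTop, 1 - 11 * (1 / 2) ^ s ≤ (game s).value ω n z) ∧
      (∃ᶠ n in atTop, (game s).value ω n z ≤ 11 * (1 / 2) ^ s) := by
  have htend : Tendsto (MM s) atTop atTop := by
    apply tendsto_atTop_mono (f := fun k => k)
    · intro k
      show k ≤ MM s k
      unfold MM
      calc k ≤ 2 ^ k := Nat.lt_two_pow_self.le
        _ ≤ _ := Nat.pow_le_pow_right (by norm_num) (by nlinarith)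
    · exact tendsto_id
  filter_upwards [eventually_good hs z] with ω hω
  constructor
  · have h1 : ∃ᶠ k in atTop, Odd k ∧ Good s k (MM s k) (tr z ω) := by
      refine Frequently.and_eventually ?_ hω
      rw [frequently_atTop]
      intro a
      exact ⟨2 * a + 1, by omega, by simp⟩
    refine htend.frequently (h1.mono fun k hk => ?_)
    exact value_odd hs hk.1 hk.2
  · have h1 : ∃ᶠ k in atTop, Even k ∧ Good s k (MM s k) (tr z ω) := by
      refine Frequently.and_eventually ?_ hω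
      rw [frequently_atTop]
      intro a
      exact ⟨2 * a, by omega, by simp⟩
    refine htend.frequently (h1.mono fun k hk => ?_)
    exact value_even hs hk.1 hk.2

/-- Existence, for every error. -/
theorem exists_game {ε : ℝ} (hε : 0 < ε) : ∃ Γ : PercolationGame 2, Γ.Oriented ∧
    Nat.card Γ.I = 2 ∧ Nat.card Γ.J = 2 ∧ (∀ ω z i j, Γ.payoff ω z i j = 0 ∨ Γ.payoff ω z i j = 1) ∧
    ∀ z, ∀ᵐ ω ∂Γ.P, (∃ᶠ n in atTop, 1 - ε ≤ Γ.value ω n z) ∧
      (∃ᶠ n in atTop, Γ.value ω n z ≤ ε) := by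
  obtain ⟨s, hs⟩ : ∃ s : ℕ, 1 ≤ s ∧ 11 * (1 / 2 : ℝ) ^ s ≤ ε := by
    obtain ⟨n, hn⟩ := exists_pow_lt_of_lt_one (y := (1 / 2 : ℝ)) (x := ε / 11) (by positivity)
      (by norm_num)
    refine ⟨n + 1, by omega, ?_⟩
    rw [pow_succ]
    have : (0 : ℝ) < (1 / 2) ^ n := by positivity
    linarith
  refine ⟨game s, game_oriented s, Nat.card_eq_fintype_card (α := Bool),
    Nat.card_eq_fintype_card (α := Bool), fun ω z i j => pay_mem s (tr z ω) i j, fun z => ?_⟩
  have h1 := oscillation hs.1 z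
  filter_upwards [h1] with ω hω
  exact ⟨hω.1.mono fun n hn => by linarith [hs.2], hω.2.mono fun n hn => by linarith [hs.2]⟩

/-- Oscillation excludes convergence. -/
lemma not_tendsto {Γ : PercolationGame 2} {ω : Γ.Ω} {z : Fin 2 → ℤ} {ε : ℝ} (hε : ε < 1 / 2)
    (h1 : ∃ᶠ n in atTop, 1 - ε ≤ Γ.value ω n z) (h2 : ∃ᶠ n in atTop, Γ.value ω n z ≤ ε) :
    ¬ ∃ l : ℝ, Tendsto (fun n => Γ.value ω n z) atTop (𝓝 l) := by
  rintro ⟨l, hl⟩
  have h3 : 1 - ε ≤ l := by
    by_contra hcon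
    push Not at hcon
    exact h1 ((hl.eventually (eventually_lt_nhds hcon)).mono fun n hn => not_le.2 hn)
  have h4 : l ≤ ε := by
    by_contra hcon
    push Not at hcon
    exact h2 ((hl.eventually (eventually_gt_nhds hcon)).mono fun n hn => not_le.2 hn)
  linarith

end Pool.Agent.Lib.MP_f59e5e_pr
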